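import Pool.Agent.Helper74.FP.Goals2
import Pool.Agent.Helper52.Wq2.Minor

set_option autoImplicit false

namespace Pool.Agent.Helper82.FP

open Pool.Agent.Helper74.FP Pool.Agent.Helper52.Wq2

universe u

theorem f8 : F8Stmt.{u} := by
  intro N Γ _ S _ hP
  classical
  have hn : ∀ i, ∃ d : (Σ n : Fin (N + 1), SimpleGraph (Fin n)),
      Nonempty (cay (S i) ≃g d.2) := by
    intro i
    obtain ⟨hf, hc⟩ := hP i
    exact ⟨⟨⟨Nat.card (Γ i), by omega⟩, (cay (S i)).map (Finite.equivFin (Γ i)).toEmbedding⟩,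
      ⟨SimpleGraph.Iso.map (Finite.equivFin (Γ i)) (cay (S i))⟩⟩
  choose d hd using hn
  obtain ⟨i, j, hne, h⟩ := Finite.exists_ne_map_eq_of_infinite d
  obtain ⟨a⟩ := hd i
  obtain ⟨b⟩ := hd j
  rw [← h] at b
  rcases lt_or_gt_of_ne hne with hlt | hlt
  · exact ⟨i, j, hlt, Mn.of_iso (a.trans b.symm)⟩
  · exact ⟨j, i, hlt, Mn.of_iso (b.trans a.symm)⟩

end Pool.Agent.Helper82.FP
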